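import Mathlib

namespace Pool.Agent.Results.MP_d99131_an.NoLimit

open Filter Topology Set
open scoped ENNReal Classical

/-- Upper density of a set of positive integers. -/
noncomputable def upperDensity (B : Set ℕ) : ℝ :=
  limsup (fun N : ℕ => (((Finset.Icc 1 N).filter (· ∈ B)).card : ℝ) / N) atTop

/-- Property `𝒜` of a sequence of operators (only indices `n ≥ 1` are counted). -/
def PropA {X : Type} [NormedAddCommGroup X] [NormedSpace ℂ X] (T : ℕ → X →L[ℂ] X) : Prop :=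
  ∀ U : Set X, IsOpen U → U.Nonempty → ∃ x : X, 0 < upperDensity {n | T n x ∈ U}

/-- Topological multiple recurrence. -/
def MultRec {X : Type} [NormedAddCommGroup X] [NormedSpace ℂ X] (T : X →L[ℂ] X) : Prop :=
  ∀ U : Set X, IsOpen U → U.Nonempty → ∀ m : ℕ, 1 ≤ m → ∃ k : ℕ, 1 ≤ k ∧
    ∃ x : X, ∀ j ≤ m, (T ^ (j * k)) x ∈ U

/-- Good sequences. -/
def Good (l : ℕ → ℂ) : Prop :=
  ∀ (X : Type) [NormedAddCommGroup X] [NormedSpace ℂ X] [CompleteSpace X]
    [TopologicalSpace.SeparableSpace X], ¬ FiniteDimensional ℂ X →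
    ∀ T : X →L[ℂ] X, PropA (fun n => l n • T ^ n) → MultRec T

/-- The ratio `|l n| / |l (n+τ)|` has no limit in `[0,∞]`, for every `τ ≥ 1`. -/
def NoRatioLimit (l : ℕ → ℂ) : Prop :=
  ∀ τ : ℕ, 1 ≤ τ → ¬ ∃ L : ℝ≥0∞,
    Tendsto (fun n => ENNReal.ofReal (‖l n‖ / ‖l (n + τ)‖)) atTop (𝓝 L)

lemma noLim (u : ℕ → ℝ≥0∞) (a b : ℝ≥0∞) (hab : a < b) (h1 : ∃ᶠ n in atTop, u n ≤ a)
    (h2 : ∃ᶠ n in atTop, b ≤ u n) : ¬ ∃ L, Tendsto u atTop (𝓝 L) := by
  rintro ⟨L, hL⟩
  have e1 : L ≤ a := le_of_tendsto_of_frequently hL h1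
  have e2 : b ≤ L := ge_of_tendsto_of_frequently hL h2
  exact absurd (e2.trans e1) (not_le.2 hab)

lemma dens_bdd (B : Set ℕ) (N : ℕ) :
    (((Finset.Icc 1 N).filter (· ∈ B)).card : ℝ) / N ≤ 1 := by
  apply div_le_one_of_le₀ _ (Nat.cast_nonneg _)
  have := Finset.card_filter_le (Finset.Icc 1 N) (· ∈ B)
  simp only [Nat.card_Icc, Nat.add_sub_cancel] at this
  exact_mod_cast this

lemma log_small : Tendsto (fun N : ℕ => ((Nat.log 2 N : ℝ) + 1) / N) atTop (𝓝 0) := by
  have h1 : Tendsto (fun N : ℕ => Real.log N / N) atTop (𝓝 0) := by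
    have := Real.isLittleO_log_id_atTop.tendsto_div_nhds_zero
    exact this.comp tendsto_natCast_atTop_atTop
  have h2 : Tendsto (fun N : ℕ => (1 : ℝ) / N) atTop (𝓝 0) := tendsto_one_div_atTop_nhds_zero_nat
  have h3 := (h1.const_mul (1 / Real.log 2)).add h2
  simp only [mul_zero, add_zero] at h3
  refine squeeze_zero' (Eventually.of_forall fun N => by positivity) ?_ h3
  filter_upwards [eventually_ge_atTop 1] with N hN
  have hl : (0 : ℝ) < Real.log 2 := Real.log_pos (by norm_num)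
  have hp : ((2 : ℝ)) ^ Nat.log 2 N ≤ N := by exact_mod_cast Nat.pow_log_le_self 2 (by omega)
  have := Real.log_le_log (by positivity) hp
  rw [Real.log_pow] at this
  have h4 : (Nat.log 2 N : ℝ) ≤ 1 / Real.log 2 * Real.log N := by
    rw [one_div, ← div_eq_inv_mul, le_div_iff₀ hl]; exact this
  rw [← mul_div_assoc, ← add_div]
  gcongr

lemma dens_sub (B C : Set ℕ) (K : ℕ) (h : ∀ n ∈ B, n ∈ C ∨ n < K ∨ ∃ k, n = 2 ^ k)
    (hB : 0 < upperDensity B) : 0 < upperDensity C := by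
  obtain ⟨e, he0, he⟩ := exists_between hB
  have hf := frequently_lt_of_lt_limsup (isCoboundedUnder_le_of_le atTop
    (fun N : ℕ => (by positivity : (0 : ℝ) ≤
      (((Finset.Icc 1 N).filter (· ∈ B)).card : ℝ) / N))) he
  have hK : Tendsto (fun N : ℕ => (K : ℝ) / N) atTop (𝓝 0) := tendsto_const_div_atTop_nhds_zero_nat _
  have hs := (log_small.add hK).eventually (gt_mem_nhds (show (0 : ℝ) + 0 < e / 2 by linarith))
  refine lt_of_lt_of_le (half_pos he0) (le_limsup_of_frequently_le ?_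
    (isBoundedUnder_of ⟨1, dens_bdd C⟩))
  refine (hf.and_eventually hs).mono ?_
  rintro N ⟨h1, h2⟩
  have hsub : (Finset.Icc 1 N).filter (· ∈ B) ⊆ ((Finset.Icc 1 N).filter (· ∈ C) ∪
      (Finset.range (Nat.log 2 N + 1)).image (2 ^ ·)) ∪ Finset.range K := by
    intro n hn
    simp only [Finset.mem_filter, Finset.mem_union, Finset.mem_image, Finset.mem_range,
      Finset.mem_Icc] at hn ⊢
    rcases h n hn.2 with h | h | ⟨k, rfl⟩
    · exact Or.inl (Or.inl ⟨hn.1, h⟩)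
    · exact Or.inr h
    · exact Or.inl (Or.inr ⟨k, Nat.lt_succ_of_le (Nat.le_log_of_pow_le (by norm_num) hn.1.2), rfl⟩)
  have hc := (Finset.card_le_card hsub).trans ((Finset.card_union_le _ _).trans
    (Nat.add_le_add_right ((Finset.card_union_le _ _).trans
      (Nat.add_le_add_left Finset.card_image_le _)) _))
  simp only [Finset.card_range] at hc
  have hc' : (((Finset.Icc 1 N).filter (· ∈ B)).card : ℝ) ≤
      ((Finset.Icc 1 N).filter (· ∈ C)).card + ((Nat.log 2 N : ℝ) + 1) + K := by exact_mod_cast hc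
  have : (((Finset.Icc 1 N).filter (· ∈ B)).card : ℝ) / N ≤
      ((Finset.Icc 1 N).filter (· ∈ C)).card / N + (((Nat.log 2 N : ℝ) + 1) / N + K / N) := by
    rw [← add_div, ← add_div, ← add_assoc]; gcongr
  linarith

noncomputable def mu (n : ℕ) : ℂ := if ∃ k, n = 2 ^ k then 2 else 1

lemma pw1 (τ k : ℕ) (hτ : 1 ≤ τ) (h : τ < 2 ^ k) : ¬ ∃ j, 2 ^ k + τ = 2 ^ j := by
  rintro ⟨j, hj⟩
  have h1 : k < j := (Nat.pow_lt_pow_iff_right (a := 2) (by norm_num)).1 (by omega)
  have h2 : j < k + 1 := (Nat.pow_lt_pow_iff_right (a := 2) (by norm_num)).1 (by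
    rw [pow_succ]; omega)
  omega

lemma mu_norm (n : ℕ) : ‖mu n‖ = if ∃ k, n = 2 ^ k then 2 else 1 := by
  unfold mu; split_ifs <;> simp

lemma freq (P : ℕ → Prop) (τ : ℕ) (g : ℕ → ℕ) (hg : ∀ k, k ≤ g k + τ)
    (h : ∀ k, τ ≤ k → P (g k)) : ∃ᶠ n in atTop, P n := by
  rw [frequently_atTop]
  intro a
  exact ⟨g (a + τ), by have := hg (a + τ); omega, h _ (by omega)⟩

lemma mu_noLim : NoRatioLimit mu := by
  intro τ hτ
  refine noLim _ 1 2 (by norm_num) ?_ ?_
  · refine freq _ τ (fun k => 2 ^ k - τ) (fun k => by have := k.lt_two_pow_self; omega) ?_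
    intro k hk
    have := k.lt_two_pow_self
    rw [Nat.sub_add_cancel (by omega), ENNReal.ofReal_le_one, mu_norm, mu_norm (2 ^ k),
      if_pos (c := ∃ j, 2 ^ k = 2 ^ j) ⟨k, rfl⟩]
    split_ifs <;> norm_num
  · refine freq _ τ (fun k => 2 ^ k) (fun k => by have := k.lt_two_pow_self; omega) ?_
    intro k hk
    have := k.lt_two_pow_self
    rw [mu_norm, mu_norm, if_pos ⟨k, rfl⟩, if_neg (pw1 τ k hτ (by omega))]
    simp

lemma mu_good (h : Good fun _ => 1) : Good mu := by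
  intro X _ _ _ _ hX T hA
  refine h X hX T fun U hU hne => ?_
  obtain ⟨x, hx⟩ := hA U hU hne
  refine ⟨x, dens_sub _ _ 0 ?_ hx⟩
  intro n hn
  by_cases hp : ∃ k, n = 2 ^ k
  · exact Or.inr (Or.inr hp)
  · left
    simpa [mu, hp] using hn

noncomputable def lam (n : ℕ) : ℂ := 1 / ((2 ^ (Nat.log 2 n + 1)).factorial : ℂ)

lemma lam_norm (n : ℕ) : ‖lam n‖ = 1 / ((2 ^ (Nat.log 2 n + 1)).factorial : ℝ) := by
  simp [lam]

lemma lam_noLim : NoRatioLimit lam := by
  intro τ hτ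
  refine noLim _ 1 2 (by norm_num) ?_ ?_
  · refine freq _ τ (fun k => 2 ^ k) (fun k => by have := k.lt_two_pow_self; omega) ?_
    intro k hk
    have := k.lt_two_pow_self
    have h1 : Nat.log 2 (2 ^ k + τ) = k := by
      rw [Nat.log_eq_iff (by right; constructor <;> omega)]
      constructor
      · omega
      · rw [pow_succ]; omega
    rw [lam_norm, lam_norm, h1, Nat.log_pow (by norm_num), div_self (by positivity)]
    simp
  · refine freq _ τ (fun k => 2 ^ k - τ) (fun k => by have := k.lt_two_pow_self; omega) ?_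
    intro k hk
    have := k.lt_two_pow_self
    have h1 : Nat.log 2 (2 ^ k - τ) < k :=
      Nat.log_lt_of_lt_pow (by omega) (by omega)
    rw [Nat.sub_add_cancel (by omega), lam_norm, lam_norm, Nat.log_pow (by norm_num)]
    have h2 : 2 ^ (Nat.log 2 (2 ^ k - τ) + 1) ≤ 2 ^ k := Nat.pow_le_pow_right (by norm_num) h1
    have h3 : 2 * (2 ^ (Nat.log 2 (2 ^ k - τ) + 1)).factorial ≤ (2 ^ (k + 1)).factorial := by
      calc _ ≤ (2 ^ k + 1) * (2 ^ k).factorial :=
            Nat.mul_le_mul (by omega) (Nat.factorial_le h2)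
        _ = (2 ^ k + 1).factorial := (Nat.factorial_succ _).symm
        _ ≤ _ := Nat.factorial_le (by rw [pow_succ]; omega)
    have h4 : (2 : ℝ) * (2 ^ (Nat.log 2 (2 ^ k - τ) + 1)).factorial ≤ (2 ^ (k + 1)).factorial := by
      exact_mod_cast h3
    rw [show (2 : ℝ≥0∞) = ENNReal.ofReal 2 by simp]
    apply ENNReal.ofReal_le_ofReal
    rw [div_div_eq_mul_div, div_one, one_div, inv_mul_eq_div, le_div_iff₀ (by positivity)]
    exact h4

lemma lam_good : Good lam := by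
  intro X _ _ _ _ hX T hA
  exfalso
  haveI : Nontrivial X := by
    by_contra h
    rw [not_nontrivial_iff_subsingleton] at h
    exact hX inferInstance
  obtain ⟨y, hy⟩ := NormedSpace.exists_lt_norm ℂ X 1
  obtain ⟨x, hx⟩ := hA {y | 1 < ‖y‖} (isOpen_lt continuous_const continuous_norm) ⟨y, hy⟩
  have ht := (FloorSemiring.tendsto_pow_div_factorial_atTop ‖T‖).mul_const ‖x‖
  rw [zero_mul] at ht
  obtain ⟨K, hK⟩ := eventually_atTop.1 (ht.eventually (gt_mem_nhds one_pos))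
  have := dens_sub _ ∅ (K + 1) ?_ hx
  · simp [upperDensity] at this
  · intro n hn
    right; left
    by_contra hc
    have h1 := hK n (by omega)
    have h2 : n.factorial ≤ (2 ^ (Nat.log 2 n + 1)).factorial :=
      Nat.factorial_le (Nat.lt_pow_succ_log_self (by norm_num) n).le
    have h3 : ‖(lam n • T ^ n) x‖ ≤ ‖T‖ ^ n / n.factorial * ‖x‖ := by
      rw [ContinuousLinearMap.smul_apply, norm_smul, lam_norm, div_mul_eq_mul_div, one_mul,
        div_mul_eq_mul_div]
      gcongr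
      exact ((T ^ n).le_opNorm x).trans (by gcongr; exact norm_pow_le' T (by omega))
    have h4 : 1 < ‖(lam n • T ^ n) x‖ := hn
    linarith

theorem result : (∃ l : ℕ → ℂ, (∀ n, l n ≠ 0) ∧ Good l ∧ NoRatioLimit l) ∧
    (Good (fun _ => 1) → ∃ l : ℕ → ℂ, (∀ n, l n = 1 ∨ l n = 2) ∧ Good l ∧ NoRatioLimit l) := by
  refine ⟨⟨lam, fun n => ?_, lam_good, lam_noLim⟩, fun h => ⟨mu, fun n => ?_, mu_good h, mu_noLim⟩⟩
  · unfold lam
    exact one_div_ne_zero (by exact_mod_cast Nat.factorial_ne_zero _)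
  · unfold mu; split_ifs <;> simp

end Pool.Agent.Results.MP_d99131_an.NoLimit
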